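import Pool.Agent.Lib.OrlovFive.Numbers

/-!
# Hodge numbers and blocks of degrees
-/

set_option autoImplicit false
set_option linter.unusedSectionVars false

open scoped TensorProduct ComplexOrder

namespace Pool.Agent.Lib.OrlovSig

namespace HodgeLefschetz

variable {d : ℕ} {V V' : Type*} [AddCommGroup V] [Module ℚ V] [FiniteDimensional ℚ V]
  [AddCommGroup V'] [Module ℚ V'] [FiniteDimensional ℚ V']

theorem prBlockC_hp (X : HodgeLefschetz d V) (a p q : ℕ) (x : ℂ ⊗[ℚ] V) :
    (X.prBlock a).baseChange ℂ (X.hp p q x) = if block d (p + q) = a then X.hp p q x else 0 := by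
  unfold prBlock
  rw [baseChange_sum', LinearMap.sum_apply]
  by_cases h : p + q ≤ 2 * d
  · rw [Finset.sum_eq_single_of_mem (p + q) (Finset.mem_range.2 (by omega))]
    · split_ifs with h1
      · rw [X.prC_hp, if_pos rfl]
      · rw [LinearMap.baseChange_zero, LinearMap.zero_apply]
    · intro j _ hj
      split_ifs with h1
      · rw [X.prC_hp, if_neg (Ne.symm hj)]
      · rw [LinearMap.baseChange_zero, LinearMap.zero_apply]
  · rw [X.hp_top p q (by omega)]
    simp

/-- the trace of the projector onto a column of a block -/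
theorem trace_col_block (X : HodgeLefschetz d V) (a : ℕ) (c : ℤ) :
    LinearMap.trace ℂ (ℂ ⊗[ℚ] V) (X.col c ∘ₗ (X.prBlock a).baseChange ℂ) =
      ∑ i ∈ (Finset.range (2 * d + 1) ×ˢ Finset.range (2 * d + 1)).filter
        (fun i => (i.1 : ℤ) - i.2 = c ∧ block d (i.1 + i.2) = a), (X.hodge i.1 i.2 : ℂ) := by
  have h : X.col c ∘ₗ (X.prBlock a).baseChange ℂ =
      ∑ i ∈ (Finset.range (2 * d + 1) ×ˢ Finset.range (2 * d + 1)).filter
        (fun i => (i.1 : ℤ) - i.2 = c ∧ block d (i.1 + i.2) = a), X.hp i.1 i.2 := by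
    apply X.ext_hp
    intro p q x
    rw [LinearMap.comp_apply, X.prBlockC_hp, LinearMap.sum_apply]
    by_cases hd : p + q ≤ 2 * d
    · by_cases h1 : (p : ℤ) - q = c ∧ block d (p + q) = a
      · rw [if_pos h1.2, X.col_hp, if_pos h1.1]
        rw [Finset.sum_eq_single_of_mem (p, q)]
        · exact (X.hp_self p q x).symm
        · rw [Finset.mem_filter, Finset.mem_product, Finset.mem_range, Finset.mem_range]
          exact ⟨⟨by change p < _; omega, by change q < _; omega⟩, h1⟩
        · intro j _ hj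
          exact X.hp_ne _ _ _ _ _ hj
      · have e1 : X.col c (if block d (p + q) = a then X.hp p q x else 0) = 0 := by
          by_cases h2 : block d (p + q) = a
          · rw [if_pos h2, X.col_hp, if_neg (fun h3 => h1 ⟨h3, h2⟩)]
          · rw [if_neg h2, map_zero]
        rw [e1]
        symm
        apply Finset.sum_eq_zero
        rintro ⟨p', q'⟩ hj
        rw [Finset.mem_filter] at hj
        apply X.hp_ne
        intro h3
        rw [Prod.mk.injEq] at h3
        obtain ⟨h4, h5⟩ := h3
        subst h4 h5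
        exact h1 hj.2
    · rw [X.hp_top p q (by omega)]
      simp
  rw [h, map_sum]
  exact Finset.sum_congr rfl (fun i _ => (X.hodge_eq_trace _ _).symm)

theorem sum_block_eq (X : HodgeLefschetz d V) (X' : HodgeLefschetz d V') (φ : V ≃ₗ[ℚ] V')
    (hφ : X.IsHodge X' φ.toLinearMap)
    (hb : ∀ a, φ.toLinearMap ∘ₗ X.prBlock a = X'.prBlock a ∘ₗ φ.toLinearMap) (a : ℕ) (c : ℤ) :
    ∑ i ∈ (Finset.range (2 * d + 1) ×ˢ Finset.range (2 * d + 1)).filter
        (fun i => (i.1 : ℤ) - i.2 = c ∧ block d (i.1 + i.2) = a), (X.hodge i.1 i.2 : ℤ) =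
    ∑ i ∈ (Finset.range (2 * d + 1) ×ˢ Finset.range (2 * d + 1)).filter
        (fun i => (i.1 : ℤ) - i.2 = c ∧ block d (i.1 + i.2) = a), (X'.hodge i.1 i.2 : ℤ) := by
  have h := trace_conj_equiv φ (X.col c ∘ₗ (X.prBlock a).baseChange ℂ)
    (X'.col c ∘ₗ (X'.prBlock a).baseChange ℂ) ?_
  · rw [X.trace_col_block, X'.trace_col_block] at h
    exact_mod_cast h
  · intro x
    rw [LinearMap.comp_apply, LinearMap.comp_apply, hφ c]
    congr 1
    rw [← LinearMap.comp_apply, ← LinearMap.comp_apply, ← LinearMap.baseChange_comp,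
      ← LinearMap.baseChange_comp, hb a]

end HodgeLefschetz

/-- The arithmetic of the Hodge diamonds of fivefolds: a difference `δ` of two Hodge diamonds with
the listed properties is determined by `δ 2 0` and `δ 1 1`. -/
theorem diamond_five (δ : ℕ → ℕ → ℤ) (hs : ∀ p q, δ p q = δ q p)
    (hd : ∀ p q, p ≤ 5 → q ≤ 5 → δ p q = δ (5 - p) (5 - q))
    (hz : ∀ p q, 5 < p ∨ 5 < q → δ p q = 0)
    (ho : ∀ p q, p ≤ 5 → q ≤ 5 → (p + q) % 2 = 1 → δ p q = 0)
    (h00 : δ 0 0 = 0) (h0 : δ 0 0 + δ 1 1 + δ 2 2 = 0) (h2 : δ 2 0 + δ 3 1 = 0) (h4 : δ 4 0 = 0) :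
    ∑ q ∈ Finset.range 6, (-1 : ℤ) ^ q * δ 0 q = δ 2 0 ∧
    3 * ∑ p ∈ Finset.range 6, ∑ q ∈ Finset.range 6,
        (-1 : ℤ) ^ (p + q) * (2 * p - 5) ^ 2 * δ p q =
      5 * ∑ p ∈ Finset.range 6, ∑ q ∈ Finset.range 6, (-1 : ℤ) ^ (p + q) * δ p q +
        48 * (2 * δ 2 0 + δ 1 1) ∧
    (δ 2 0 = 0 → δ 1 1 = 0 → ∀ p q, δ p q = 0) ∧
    (2 * δ 2 0 + δ 1 1 = 0 → ∀ j, ∑ p ∈ Finset.range (j + 1), δ p (j - p) = 0) ∧
    ∑ p ∈ Finset.range (2 + 1), δ p (2 - p) = 2 * δ 2 0 + δ 1 1 := by
  have o01 := ho 0 1 (by norm_num) (by norm_num) (by norm_num)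
  have o03 := ho 0 3 (by norm_num) (by norm_num) (by norm_num)
  have o05 := ho 0 5 (by norm_num) (by norm_num) (by norm_num)
  have o10 := ho 1 0 (by norm_num) (by norm_num) (by norm_num)
  have o12 := ho 1 2 (by norm_num) (by norm_num) (by norm_num)
  have o14 := ho 1 4 (by norm_num) (by norm_num) (by norm_num)
  have o21 := ho 2 1 (by norm_num) (by norm_num) (by norm_num)
  have o23 := ho 2 3 (by norm_num) (by norm_num) (by norm_num)
  have o25 := ho 2 5 (by norm_num) (by norm_num) (by norm_num)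
  have o30 := ho 3 0 (by norm_num) (by norm_num) (by norm_num)
  have o32 := ho 3 2 (by norm_num) (by norm_num) (by norm_num)
  have o34 := ho 3 4 (by norm_num) (by norm_num) (by norm_num)
  have o41 := ho 4 1 (by norm_num) (by norm_num) (by norm_num)
  have o43 := ho 4 3 (by norm_num) (by norm_num) (by norm_num)
  have o45 := ho 4 5 (by norm_num) (by norm_num) (by norm_num)
  have o50 := ho 5 0 (by norm_num) (by norm_num) (by norm_num)
  have o52 := ho 5 2 (by norm_num) (by norm_num) (by norm_num)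
  have o54 := ho 5 4 (by norm_num) (by norm_num) (by norm_num)
  have s02 := hs 0 2
  have s04 := hs 0 4
  have s13 := hs 1 3
  have d55 := hd 5 5 (by norm_num) (by norm_num)
  have d44 := hd 4 4 (by norm_num) (by norm_num)
  have d33 := hd 3 3 (by norm_num) (by norm_num)
  have d53 := hd 5 3 (by norm_num) (by norm_num)
  have d35 := hd 3 5 (by norm_num) (by norm_num)
  have d51 := hd 5 1 (by norm_num) (by norm_num)
  have d15 := hd 1 5 (by norm_num) (by norm_num)
  have d42 := hd 4 2 (by norm_num) (by norm_num)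
  have d24 := hd 2 4 (by norm_num) (by norm_num)
  norm_num at d55 d44 d33 d53 d35 d51 d15 d42 d24
  refine ⟨?_, ?_, ?_, ?_, ?_⟩
  · simp only [Finset.sum_range_succ, Finset.sum_range_zero]
    norm_num
    linarith
  · simp only [Finset.sum_range_succ, Finset.sum_range_zero]
    norm_num
    linarith
  · intro k20 k11 p q
    by_cases hpq : p ≤ 5 ∧ q ≤ 5
    · obtain ⟨hp, hq⟩ := hpq
      interval_cases p <;> interval_cases q <;> linarith
    · exact hz p q (by omega)
  · intro k j
    by_cases hj : j ≤ 10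
    · have z06 := hz 0 6 (by norm_num)
      have z60 := hz 6 0 (by norm_num)
      have z07 := hz 0 7 (by norm_num)
      have z70 := hz 7 0 (by norm_num)
      have z16 := hz 1 6 (by norm_num)
      have z61 := hz 6 1 (by norm_num)
      have z08 := hz 0 8 (by norm_num)
      have z80 := hz 8 0 (by norm_num)
      have z17 := hz 1 7 (by norm_num)
      have z71 := hz 7 1 (by norm_num)
      have z26 := hz 2 6 (by norm_num)
      have z62 := hz 6 2 (by norm_num)
      have z09 := hz 0 9 (by norm_num)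
      have z90 := hz 9 0 (by norm_num)
      have z18 := hz 1 8 (by norm_num)
      have z81 := hz 8 1 (by norm_num)
      have z27 := hz 2 7 (by norm_num)
      have z72 := hz 7 2 (by norm_num)
      have z36 := hz 3 6 (by norm_num)
      have z63 := hz 6 3 (by norm_num)
      have z0a := hz 0 10 (by norm_num)
      have za0 := hz 10 0 (by norm_num)
      have z19 := hz 1 9 (by norm_num)
      have z91 := hz 9 1 (by norm_num)
      have z28 := hz 2 8 (by norm_num)
      have z82 := hz 8 2 (by norm_num)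
      have z37 := hz 3 7 (by norm_num)
      have z73 := hz 7 3 (by norm_num)
      have z46 := hz 4 6 (by norm_num)
      have z64 := hz 6 4 (by norm_num)
      interval_cases j <;>
        simp only [Finset.sum_range_succ, Finset.sum_range_zero] <;> norm_num <;> linarith
    · apply Finset.sum_eq_zero
      intro p _
      exact hz _ _ (by omega)
  · simp only [Finset.sum_range_succ, Finset.sum_range_zero]
    norm_num
    linarith

end Pool.Agent.Lib.OrlovSig
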