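import Pool.Agent.Lib.OrlovFive.Numbers

/-!
# The vanishing of `c₁` is seen by the Mukai pairing
-/

set_option autoImplicit false
set_option linter.unusedSectionVars false

open scoped TensorProduct ComplexOrder

namespace Pool.Agent.Lib.OrlovSig

namespace HodgeLefschetz

variable {d : ℕ} {V V' : Type*} [AddCommGroup V] [Module ℚ V] [FiniteDimensional ℚ V]
  [AddCommGroup V'] [Module ℚ V'] [FiniteDimensional ℚ V']

theorem pair_pr_pr (X : HodgeLefschetz d V) (i j : ℕ) (h : i + j ≠ 2 * d) (x y : V) :
    X.pair (X.pr i x) (X.pr j y) = 0 := by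
  by_cases hi : i ≤ 2 * d
  · rw [X.pair_pr i hi, ← Module.End.mul_apply, X.pr_ne _ _ (by omega), LinearMap.zero_apply,
      map_zero]
  · rw [X.pr_top i (by omega), LinearMap.zero_apply, map_zero, LinearMap.zero_apply]

/-- `⟨x^∨, y⟩` is `(-1)^d`-symmetric. -/
theorem pair_dual_comm (X : HodgeLefschetz d V) (x y : V) :
    X.pair (X.dual y) x = (-1) ^ d * X.pair (X.dual x) y := by
  have hx : x = ∑ i ∈ Finset.range (2 * d + 1), X.pr i x := by
    rw [← LinearMap.sum_apply, X.pr_sum, LinearMap.id_apply]
  have hy : y = ∑ i ∈ Finset.range (2 * d + 1), X.pr i y := by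
    rw [← LinearMap.sum_apply, X.pr_sum, LinearMap.id_apply]
  rw [hx, hy]
  simp only [map_sum, LinearMap.sum_apply, Finset.mul_sum]
  rw [Finset.sum_comm]
  refine Finset.sum_congr rfl (fun i hi => Finset.sum_congr rfl (fun j hj => ?_))
  rw [Finset.mem_range] at hi hj
  rw [X.dual_pr, X.dual_pr, map_smul, map_smul, LinearMap.smul_apply, LinearMap.smul_apply,
    smul_eq_mul, smul_eq_mul]
  by_cases hij : i + j = 2 * d
  · rw [X.pair_comm j i x y]
    have e1 : (-1 : ℚ) ^ (i / 2) * (-1) ^ (j * i) = (-1) ^ d * (-1) ^ (j / 2) := by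
      rw [← pow_add, ← pow_add, neg_one_pow_eq_pow_mod_two, neg_one_pow_eq_pow_mod_two (n := d + _)]
      congr 1
      rcases Nat.even_or_odd' i with ⟨k, hk | hk⟩
      · have hj2 : j = 2 * (d - k) := by omega
        have h2 : j * i = 2 * (k * j) := by rw [hk]; ring
        omega
      · have hj2 : j = 2 * (d - k - 1) + 1 := by omega
        have h2 : j * i = 2 * (2 * k * (d - k - 1) + k + (d - k - 1)) + 1 := by
          rw [hj2, hk]; ring
        omega
    rw [← mul_assoc, e1, mul_assoc]
  · rw [X.pair_pr_pr j i (by omega), X.pair_pr_pr i j hij]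
    simp

theorem pair_can_pow (X : HodgeLefschetz d V) (n : ℕ) (x y : V) :
    X.pair ((X.can ^ n) x) y = X.pair x ((X.can ^ n) y) := by
  induction n generalizing x y with
  | zero => rfl
  | succ n ih =>
    rw [pow_succ, Module.End.mul_apply, ih, X.can_pair, ← Module.End.mul_apply, ← pow_succ',
      ← pow_succ]

theorem can_pow_pr (X : HodgeLefschetz d V) (n j : ℕ) (x : V) :
    (X.can ^ n) (X.pr j x) = X.pr (j + 2 * n) ((X.can ^ n) x) := by
  induction n generalizing j x with
  | zero => simp
  | succ n ih =>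
    have h1 : X.can (X.pr j x) = X.pr (j + 2) (X.can x) := by
      rw [← Module.End.mul_apply, X.can_pr, Module.End.mul_apply]
    rw [pow_succ, Module.End.mul_apply, h1, ih, Module.End.mul_apply,
      show j + 2 + 2 * n = j + 2 * (n + 1) by ring]

theorem expHalf_zero (X : HodgeLefschetz d V) (h : X.can = 0) : X.expHalf = LinearMap.id := by
  unfold expHalf
  rw [Finset.sum_eq_single_of_mem 0 (Finset.mem_range.2 (by omega))]
  · rw [pow_zero, pow_zero]
    simp
    rfl
  · intro n _ hn
    rw [h, zero_pow hn, smul_zero]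

/-- On complementary degrees only the linear term of the exponential contributes. -/
theorem pair_expHalf (X : HodgeLefschetz d V) (i j : ℕ) (hij : j + i + 2 = 2 * d) (x y : V) :
    X.pair (X.dual (X.pr j x)) (X.expHalf (X.pr i y)) =
      2⁻¹ * X.pair (X.dual (X.pr j x)) (X.can (X.pr i y)) := by
  unfold expHalf
  rw [LinearMap.sum_apply, map_sum, Finset.sum_eq_single_of_mem 1 (Finset.mem_range.2 (by omega))]
  · rw [LinearMap.smul_apply, map_smul, smul_eq_mul, pow_one, pow_one]
    simp
  · intro n _ hn
    rw [LinearMap.smul_apply, map_smul, X.can_pow_pr, X.dual_pr, map_smul, LinearMap.smul_apply,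
      X.pair_pr_pr j (i + 2 * n) (by omega)]
    simp

theorem can_zero (X : HodgeLefschetz d V) (X' : HodgeLefschetz d V') (u : V ≃ₗ[ℚ] V')
    (hm : ∀ x y, X'.mukai (u x) (u y) = X.mukai x y) (h : X.can = 0) : X'.can = 0 := by
  have hs : ∀ x y : V', X'.pair (X'.dual y) (X'.expHalf x) =
      (-1) ^ d * X'.pair (X'.dual x) (X'.expHalf y) := by
    intro x y
    have h1 : ∀ x y : V, X.mukai y x = (-1) ^ d * X.mukai x y := by
      intro x y
      unfold mukai
      rw [X.expHalf_zero h, LinearMap.id_apply, LinearMap.id_apply]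
      exact X.pair_dual_comm x y
    have h2 := h1 (u.symm x) (u.symm y)
    rw [← hm, ← hm, LinearEquiv.apply_symm_apply, LinearEquiv.apply_symm_apply] at h2
    exact h2
  apply X'.ext_pr
  intro i y
  rw [LinearMap.zero_apply]
  by_cases hi : i + 2 ≤ 2 * d
  · -- pair with everything
    have hflip : ∀ x, X'.pair x (X'.can (X'.pr i y)) = 0 := by
      intro x
      have e0 : X'.can (X'.pr i y) = X'.pr (i + 2) (X'.can y) := by
        rw [← Module.End.mul_apply, X'.can_pr, Module.End.mul_apply]
      set j := 2 * d - (i + 2) with hj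
      have e1 : X'.pair x (X'.can (X'.pr i y)) = X'.pair (X'.pr j x) (X'.can (X'.pr i y)) := by
        have e8 : X'.pr (i + 2) (X'.can (X'.pr i y)) = X'.can (X'.pr i y) := by
          rw [e0, ← Module.End.mul_apply, X'.pr_self]
        rw [X'.pair_pr j (by omega), show 2 * d - j = i + 2 by omega, e8]
      have e2 := hs (X'.pr i y) (X'.pr j x)
      rw [X'.pair_expHalf i j (by omega), X'.pair_expHalf j i (by omega)] at e2
      -- move `can` to the other side
      have e3 : X'.pair (X'.dual (X'.pr i y)) (X'.can (X'.pr j x)) =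
          (-1) ^ d * X'.pair (X'.dual (X'.can (X'.pr j x))) (X'.pr i y) := by
        rw [X'.pair_dual_comm (X'.can (X'.pr j x)) (X'.pr i y)]
      have e4 : X'.dual (X'.can (X'.pr j x)) = - X'.can (X'.dual (X'.pr j x)) := by
        have := LinearMap.congr_fun X'.dual_can (X'.pr j x)
        simpa using this
      have e5 : (-1 : ℚ) ^ d * (-1) ^ d = 1 := by
        rw [← pow_add, ← two_mul, pow_mul]
        norm_num
      rw [e3, e4, map_neg, LinearMap.neg_apply, X'.can_pair] at e2
      have e6 : X'.pair (X'.dual (X'.pr j x)) (X'.can (X'.pr i y)) = 0 := by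
        have e7 : (-1 : ℚ) ^ d * (2⁻¹ * ((-1) ^ d *
            -X'.pair (X'.dual (X'.pr j x)) (X'.can (X'.pr i y)))) =
            -(2⁻¹ * X'.pair (X'.dual (X'.pr j x)) (X'.can (X'.pr i y))) := by
          linear_combination (-(2⁻¹ * X'.pair (X'.dual (X'.pr j x)) (X'.can (X'.pr i y)))) * e5
        rw [e7] at e2
        linarith
      rw [X'.dual_pr, map_smul, LinearMap.smul_apply, smul_eq_mul] at e6
      rw [e1]
      rcases mul_eq_zero.1 e6 with h7 | h7
      · exfalso
        exact (pow_ne_zero _ (by norm_num)) h7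
      · exact h7
    apply X'.pair_flip_bijective.1
    rw [map_zero]
    ext x
    rw [LinearMap.flip_apply, LinearMap.zero_apply]
    exact hflip x
  · rw [← Module.End.mul_apply, X'.can_pr, X'.pr_top (i + 2) (by omega), zero_mul,
      LinearMap.zero_apply]

end HodgeLefschetz

end Pool.Agent.Lib.OrlovSig
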