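import Pool.Agent.Lib.OrlovSig.Defs

/-!
# Hodge numbers and Riemann-Roch

Hodge numbers of Hodge-Lefschetz data, and the two numerical consequences of the theorem of
Hirzebruch-Riemann-Roch that are used: the formula of Libgober and Wood for the second moment of
the `χ_y`-genus, and the divisibility by `c₁` of the Todd classes of odd degree.
-/

set_option autoImplicit false

open scoped TensorProduct

namespace Pool.Agent.Lib.OrlovSig

namespace HodgeLefschetz

variable {d : ℕ} {V : Type*} [AddCommGroup V] [Module ℚ V]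

/-- The Hodge number `h^{p,q}(X)`. -/
noncomputable def hodge (X : HodgeLefschetz d V) (p q : ℕ) : ℕ :=
  Module.finrank ℂ (LinearMap.range (X.hp p q))

/-- The Betti number `b_j(X)`. -/
noncomputable def betti (X : HodgeLefschetz d V) (j : ℕ) : ℕ :=
  Module.finrank ℚ (LinearMap.range (X.pr j))

/-- Riemann-Roch for a smooth projective variety `X` of dimension `d`.  `one` is the unit of
`H^0`, so that `X.pair one y = ∫ y`; `chern` is `c_{d-1}(X)`; `todd` is the class in
`H^{2d-2}(X, ℚ)` with `td_d(X) = c₁(X) ∪ todd` when `d` is odd. -/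
structure RiemannRoch (X : HodgeLefschetz d V) where
  one : V
  chern : V
  todd : V
  one_mem : X.pr 0 one = one
  chern_mem : X.pr (2 * d - 2) chern = chern
  todd_mem : X.pr (2 * d - 2) todd = todd
  /-- Libgober-Wood: `∑ (-1)^{p+q} (p - d/2)² h^{p,q} = (d/12) c_d + (1/6) c₁ c_{d-1}`,
  where `c_d = ∑ (-1)^{p+q} h^{p,q}` -/
  libgober_wood : 3 * ∑ p ∈ Finset.range (d + 1), ∑ q ∈ Finset.range (d + 1),
      (-1 : ℚ) ^ (p + q) * (2 * p - d) ^ 2 * X.hodge p q =
    d * ∑ p ∈ Finset.range (d + 1), ∑ q ∈ Finset.range (d + 1),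
      (-1 : ℚ) ^ (p + q) * X.hodge p q + 2 * X.pair one (X.can chern)
  /-- Hirzebruch: `χ(O_X) = ∫ td_d(X)` -/
  hirzebruch : Odd d → ∑ q ∈ Finset.range (d + 1), (-1 : ℚ) ^ q * X.hodge 0 q =
    X.pair one (X.can todd)

namespace RiemannRoch

/-- The Chern number `c₁ c_{d-1}`. -/
noncomputable def c1c (X : HodgeLefschetz d V) (R : X.RiemannRoch) : ℚ :=
  X.pair R.one (X.can R.chern)

end RiemannRoch

/-- The holomorphic Euler characteristic `χ(O_X)`. -/
noncomputable def eulerO (X : HodgeLefschetz d V) : ℤ :=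
  ∑ q ∈ Finset.range (d + 1), (-1 : ℤ) ^ q * X.hodge 0 q

end HodgeLefschetz

end Pool.Agent.Lib.OrlovSig
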