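import Pool.Agent.Lib.OrlovFive.Main

/-!
# MP_5c0b30_ag: derived equivalent fivefolds

`X`, `X'` are the Hodge-Lefschetz data of the rational cohomology of two connected smooth
projective complex fivefolds, `R`, `R'` the numerical consequences of the theorem of
Riemann-Roch for them.  A derived equivalence induces, through the Mukai vector of its kernel, a
linear isomorphism `u` that respects the sums of the `H^{p,q}` with `p - q = c` and the
generalised Mukai pairing.
-/

set_option autoImplicit false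

open scoped TensorProduct

namespace Pool.Agent.Lib.OrlovFive.KTrivialFivefolds

open Pool.Agent.Lib.OrlovSig

theorem result {V V' : Type*} [AddCommGroup V] [Module ℚ V] [FiniteDimensional ℚ V]
    [AddCommGroup V'] [Module ℚ V'] [FiniteDimensional ℚ V']
    (X : HodgeLefschetz 5 V) (X' : HodgeLefschetz 5 V') (R : X.RiemannRoch) (R' : X'.RiemannRoch)
    (u : V ≃ₗ[ℚ] V')
    (hu : ∀ (c : ℤ) (x : ℂ ⊗[ℚ] V), u.toLinearMap.baseChange ℂ (X.col c x) =
      X'.col c (u.toLinearMap.baseChange ℂ x))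
    (hm : ∀ x y : V, X'.mukai (u x) (u y) = X.mukai x y)
    (h1 : X.HodgeIso X' 1) :
    (X.can = 0 → (∀ p q, X.hodge p q = X'.hodge p q) ∧
      (X.hodge 2 0 = 0 → ∀ j, X.HodgeIso X' j)) ∧
    (X.pair R.one (X.can R.chern) - X'.pair R'.one (X'.can R'.chern) =
        24 * ((X.betti 2 : ℚ) - X'.betti 2) ∧
      X.eulerO - X'.eulerO = (X.hodge 2 0 : ℤ) - X'.hodge 2 0) ∧
    (X.betti 2 = X'.betti 2 → (∀ j, X.betti j = X'.betti j) ∧
      (X.hodge 2 0 = X'.hodge 2 0 → (∀ p q, X.hodge p q = X'.hodge p q) ∧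
        (X.hodge 2 0 = 0 → ∀ j, X.HodgeIso X' j))) := by
  have hu' : X.IsHodge X' u.toLinearMap := by
    unfold HodgeLefschetz.IsHodge
    intro c x
    rw [hu c x]
  have k1 := @HodgeLefschetz.numbers_of_can V V' _ _ _ _ _ _ X X' R R'
  have k2 := @HodgeLefschetz.betti_iff V V' _ _ _ _ _ _ X X' R R' u hu' hm h1
  have k3 := @HodgeLefschetz.eulerO_sub V V' _ _ _ _ _ _ X X' u hu' hm h1
  have k4 := @HodgeLefschetz.all_five V V' _ _ _ _ _ _ X X' u hu' hm h1
  have k5 := @HodgeLefschetz.can_zero 5 V V' _ _ _ _ _ _ X X' u hm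
  have k6 := @HodgeLefschetz.hodge_iff V V' _ _ _ _ _ _ X X' u hu' hm h1
  refine ⟨fun h => ?_, ⟨k2.1, k3⟩, fun h => ⟨k2.2 h, fun h' => ⟨k6 h h', fun h20 =>
    k4 (k6 h h') h20⟩⟩⟩
  obtain ⟨e1, e2⟩ := k1 h (k5 h)
  have e3 : X.betti 2 = X'.betti 2 := by
    have e4 := k2.1
    rw [e1, sub_self] at e4
    have e5 : (X.betti 2 : ℚ) = X'.betti 2 := by linarith
    exact_mod_cast e5
  have e6 : X.hodge 2 0 = X'.hodge 2 0 := by
    rw [e2, sub_self] at k3
    omega
  exact ⟨k6 e3 e6, fun h20 => k4 (k6 e3 e6) h20⟩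

end Pool.Agent.Lib.OrlovFive.KTrivialFivefolds
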