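import Pool.Agent.Lib.OrlovFive.Numbers

/-!
# Pure Tate cohomology groups are determined by their dimension
-/

set_option autoImplicit false
set_option linter.unusedSectionVars false

open scoped TensorProduct ComplexOrder

namespace Pool.Agent.Lib.OrlovSig

namespace HodgeLefschetz

variable {d : ℕ} {V V' : Type*} [AddCommGroup V] [Module ℚ V] [FiniteDimensional ℚ V]
  [AddCommGroup V'] [Module ℚ V'] [FiniteDimensional ℚ V']

theorem betti_eq_sum (X : HodgeLefschetz d V) (j : ℕ) :
    X.betti j = ∑ p ∈ Finset.range (j + 1), X.hodge p (j - p) := by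
  have h1 : (X.betti j : ℂ) = ∑ p ∈ Finset.range (j + 1), (X.hodge p (j - p) : ℂ) := by
    have h2 : LinearMap.trace ℂ (ℂ ⊗[ℚ] V) ((X.pr j).baseChange ℂ) =
        algebraMap ℚ ℂ (LinearMap.trace ℚ V (X.pr j)) := LinearMap.trace_baseChange _ _
    rw [← X.betti_eq_trace, ← X.hp_sum j, map_sum] at h2
    simp only [← X.hodge_eq_trace] at h2
    rw [h2]
    simp
  exact_mod_cast h1

/-- If `H^j(X)` and `H^j(X')` are pure of the same type `(p, q)` and have the same dimension, then
they are isomorphic Hodge structures. -/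
theorem hodgeIso_of_tate (X : HodgeLefschetz d V) (X' : HodgeLefschetz d V') (p q : ℕ)
    (hX : X.hp p q = (X.pr (p + q)).baseChange ℂ) (hX' : X'.hp p q = (X'.pr (p + q)).baseChange ℂ)
    (hb : X.betti (p + q) = X'.betti (p + q)) : X.HodgeIso X' (p + q) := by
  set j := p + q with hj
  set e := LinearEquiv.ofFinrankEq _ _ hb with he
  set f : V →ₗ[ℚ] V' := (LinearMap.range (X'.pr j)).subtype ∘ₗ e.toLinearMap ∘ₗ
    (X.pr j).rangeRestrict with hf
  set g : V' →ₗ[ℚ] V := (LinearMap.range (X.pr j)).subtype ∘ₗ e.symm.toLinearMap ∘ₗ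
    (X'.pr j).rangeRestrict with hg
  have r1 : ∀ w : LinearMap.range (X.pr j), (X.pr j).rangeRestrict (w : V) = w := by
    rintro ⟨_, ⟨x, rfl⟩⟩
    apply Subtype.ext
    exact LinearMap.congr_fun (X.pr_self j) x
  have r2 : ∀ w : LinearMap.range (X'.pr j), (X'.pr j).rangeRestrict (w : V') = w := by
    rintro ⟨_, ⟨x, rfl⟩⟩
    apply Subtype.ext
    exact LinearMap.congr_fun (X'.pr_self j) x
  refine ⟨f, g, ?_, ?_, ?_⟩
  · ext v
    rw [LinearMap.comp_apply, hf, hg]
    simp only [LinearMap.comp_apply, Submodule.subtype_apply, LinearEquiv.coe_coe, r2,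
      LinearEquiv.symm_apply_apply]
    rfl
  · ext v
    rw [LinearMap.comp_apply, hf, hg]
    simp only [LinearMap.comp_apply, Submodule.subtype_apply, LinearEquiv.coe_coe, r1,
      LinearEquiv.apply_symm_apply]
    rfl
  · intro a b hab x
    have h3 : f ∘ₗ X.pr j = X'.pr j ∘ₗ f := by
      ext v
      rw [LinearMap.comp_apply, LinearMap.comp_apply, hf]
      simp only [LinearMap.comp_apply, Submodule.subtype_apply, LinearEquiv.coe_coe]
      have h4 : (X.pr j).rangeRestrict (X.pr j v) = (X.pr j).rangeRestrict v := by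
        apply Subtype.ext
        exact LinearMap.congr_fun (X.pr_self j) v
      rw [h4]
      exact (congrArg Subtype.val (r2 (e ((X.pr j).rangeRestrict v)))).symm
    by_cases h5 : (a, b) = (p, q)
    · rw [Prod.mk.injEq] at h5
      obtain ⟨rfl, rfl⟩ := h5
      rw [hX, hX', ← LinearMap.comp_apply, ← LinearMap.baseChange_comp, h3,
        LinearMap.baseChange_comp, LinearMap.comp_apply]
    · have k : ∀ x, X.hp a b x = 0 := by
        intro x
        have := X.hp_prC j a b x
        rw [if_pos hab, ← hX, X.hp_ne _ _ _ _ _ h5] at this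
        exact this.symm
      have k' : ∀ x, X'.hp a b x = 0 := by
        intro x
        have := X'.hp_prC j a b x
        rw [if_pos hab, ← hX', X'.hp_ne _ _ _ _ _ h5] at this
        exact this.symm
      rw [k, k', map_zero]

theorem hp_zero_of_hodge (X : HodgeLefschetz d V) {p q : ℕ} (h : X.hodge p q = 0) :
    X.hp p q = 0 := by
  have h1 : LinearMap.range (X.hp p q) = ⊥ := Submodule.finrank_eq_zero.1 h
  exact LinearMap.range_eq_bot.1 h1

/-- `H^2` is of type `(1, 1)` if `h^{2,0} = 0` -/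
theorem hp_one_one (X : HodgeLefschetz d V) (h : X.hodge 2 0 = 0) :
    X.hp 1 1 = (X.pr (1 + 1)).baseChange ℂ := by
  rw [← X.hp_sum (1 + 1)]
  simp only [Finset.sum_range_succ, Finset.sum_range_zero]
  have h1 : X.hp 0 2 = 0 := X.hp_zero_of_hodge (by rw [X.hodge_symm]; exact h)
  have h2 : X.hp 2 0 = 0 := X.hp_zero_of_hodge h
  norm_num
  rw [h1, h2]
  simp

theorem hodgeIso_two (X : HodgeLefschetz d V) (X' : HodgeLefschetz d V')
    (h : X.hodge 2 0 = 0) (h' : X'.hodge 2 0 = 0) (h11 : X.hodge 1 1 = X'.hodge 1 1) :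
    X.HodgeIso X' 2 := by
  refine X.hodgeIso_of_tate X' 1 1 (X.hp_one_one h) (X'.hp_one_one h') ?_
  rw [X.betti_eq_sum, X'.betti_eq_sum]
  simp only [Finset.sum_range_succ, Finset.sum_range_zero]
  norm_num
  rw [h, h', h11, X.hodge_symm 0 2, X'.hodge_symm 0 2, h, h']

end HodgeLefschetz

end Pool.Agent.Lib.OrlovSig
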