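import Pool.Agent.Lib.OrlovFive.Blocks
import Pool.Agent.Lib.OrlovFive.Canonical
import Pool.Agent.Lib.OrlovFive.Tate

/-!
# Hodge numbers of derived equivalent fivefolds
-/

set_option autoImplicit false
set_option linter.unusedSectionVars false

open scoped TensorProduct ComplexOrder

namespace Pool.Agent.Lib.OrlovSig

namespace HodgeLefschetz

variable {V V' : Type*} [AddCommGroup V] [Module ℚ V] [FiniteDimensional ℚ V]
  [AddCommGroup V'] [Module ℚ V'] [FiniteDimensional ℚ V']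

theorem odd_five (X : HodgeLefschetz 5 V) (X' : HodgeLefschetz 5 V') (u : V ≃ₗ[ℚ] V')
    (hu : X.IsHodge X' u.toLinearMap) (hm : ∀ x y, X'.mukai (u x) (u y) = X.mukai x y)
    (h1 : X.HodgeIso X' 1) (j : ℕ) (hj : j % 2 = 1) : X.HodgeIso X' j := by
  have key : ∀ j ≤ 5, j % 2 = 1 → X.HodgeIso X' j ∧ X.HodgeIso X' (10 - j) := by
    intro j hj5 hj
    have h3 := X.cancel_block X' u hu hm 3 (by norm_num) (by
      intro i hi h0 _ hij hb
      exfalso
      unfold block at hb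
      split_ifs at hb <;> omega)
    have h5 := X.cancel_block X' u hu hm 5 (by norm_num) (by
      intro i hi h0 _ hij hb
      have : i = 1 := by
        unfold block at hb
        split_ifs at hb <;> omega
      rw [this]
      exact h1)
    have h9 := X.hodgeIso_dual X' u hu hm 1 (by norm_num) h1
    obtain rfl | rfl | rfl : j = 1 ∨ j = 3 ∨ j = 5 := by omega
    · exact ⟨h1, h9⟩
    · exact h3
    · exact h5
  rcases Nat.lt_or_ge 10 j with h | h
  · exact X.hodgeIso_top X' j h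
  · rcases Nat.le_total j 5 with h2 | h2
    · exact (key j h2 hj).1
    · have := (key (10 - j) (by omega) (by omega)).2
      rwa [show 10 - (10 - j) = j by omega] at this

theorem filter_zero : ((Finset.range (2 * 5 + 1) ×ˢ Finset.range (2 * 5 + 1)).filter
    (fun i : ℕ × ℕ => (i.1 : ℤ) - i.2 = 0 ∧ block 5 (i.1 + i.2) = 3)) =
    {(0, 0), (1, 1), (2, 2)} := by
  decide

theorem filter_two : ((Finset.range (2 * 5 + 1) ×ˢ Finset.range (2 * 5 + 1)).filter
    (fun i : ℕ × ℕ => (i.1 : ℤ) - i.2 = 2 ∧ block 5 (i.1 + i.2) = 3)) =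
    {(2, 0), (3, 1)} := by
  decide

theorem filter_four : ((Finset.range (2 * 5 + 1) ×ˢ Finset.range (2 * 5 + 1)).filter
    (fun i : ℕ × ℕ => (i.1 : ℤ) - i.2 = 4 ∧ block 5 (i.1 + i.2) = 3)) =
    {(4, 0)} := by
  decide

/-- the difference of the two Hodge diamonds -/
theorem five_package (X : HodgeLefschetz 5 V) (X' : HodgeLefschetz 5 V') (u : V ≃ₗ[ℚ] V')
    (hu : X.IsHodge X' u.toLinearMap) (hm : ∀ x y, X'.mukai (u x) (u y) = X.mukai x y)
    (h1 : X.HodgeIso X' 1) (δ : ℕ → ℕ → ℤ)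
    (hδ : ∀ p q, δ p q = (X.hodge p q : ℤ) - X'.hodge p q) :
    ∑ q ∈ Finset.range 6, (-1 : ℤ) ^ q * δ 0 q = δ 2 0 ∧
    3 * ∑ p ∈ Finset.range 6, ∑ q ∈ Finset.range 6,
        (-1 : ℤ) ^ (p + q) * (2 * p - 5) ^ 2 * δ p q =
      5 * ∑ p ∈ Finset.range 6, ∑ q ∈ Finset.range 6, (-1 : ℤ) ^ (p + q) * δ p q +
        48 * (2 * δ 2 0 + δ 1 1) ∧
    (δ 2 0 = 0 → δ 1 1 = 0 → ∀ p q, δ p q = 0) ∧
    (2 * δ 2 0 + δ 1 1 = 0 → ∀ j, ∑ p ∈ Finset.range (j + 1), δ p (j - p) = 0) ∧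
    ∑ p ∈ Finset.range (2 + 1), δ p (2 - p) = 2 * δ 2 0 + δ 1 1 := by
  obtain ⟨φ, hφ, hφ'⟩ := X.exists_equiv_of_mvn X' (X.core_hodge X' u hu hm).1
  have hb := X.sum_block_eq X' φ hφ hφ' 3
  have b0 := hb 0
  have b2 := hb 2
  have b4 := hb 4
  rw [filter_zero] at b0
  rw [filter_two] at b2
  rw [filter_four] at b4
  simp at b0 b2 b4
  refine diamond_five δ ?_ ?_ ?_ ?_ ?_ ?_ ?_ ?_
  · intro p q
    rw [hδ, hδ, X.hodge_symm, X'.hodge_symm]
  · intro p q hp hq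
    rw [hδ, hδ, X.hodge_serre hp hq, X'.hodge_serre hp hq]
  · intro p q hpq
    rw [hδ, X.hodge_eq_zero hpq, X'.hodge_eq_zero hpq, sub_self]
  · intro p q hp hq ho
    rw [hδ, X.hodge_of_hodgeIso X' (X.odd_five X' u hu hm h1 (p + q) ho) rfl, sub_self]
  · rw [hδ, X.hodge_of_hodgeIso X' (X.hodgeIso_zero X') rfl, sub_self]
  · simp only [hδ]
    linarith
  · simp only [hδ]
    linarith
  · rw [hδ]
    linarith

theorem c1c_sub (X : HodgeLefschetz 5 V) (X' : HodgeLefschetz 5 V') (R : X.RiemannRoch)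
    (R' : X'.RiemannRoch) (u : V ≃ₗ[ℚ] V') (hu : X.IsHodge X' u.toLinearMap)
    (hm : ∀ x y, X'.mukai (u x) (u y) = X.mukai x y) (h1 : X.HodgeIso X' 1) :
    RiemannRoch.c1c X R - RiemannRoch.c1c X' R' = 24 * (2 * ((X.hodge 2 0 : ℚ) - X'.hodge 2 0) +
      ((X.hodge 1 1 : ℚ) - X'.hodge 1 1)) := by
  obtain ⟨-, k, -⟩ := X.five_package X' u hu hm h1 (fun p q => (X.hodge p q : ℤ) - X'.hodge p q)
    (fun p q => rfl)
  have l1 := R.libgober_wood
  have l2 := R'.libgober_wood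
  have l4 : (((3 * ∑ p ∈ Finset.range (5 + 1), ∑ q ∈ Finset.range (5 + 1),
        (-1 : ℤ) ^ (p + q) * (2 * p - 5) ^ 2 * (X.hodge p q - X'.hodge p q)) : ℤ) : ℚ) =
      ((5 * ∑ p ∈ Finset.range (5 + 1), ∑ q ∈ Finset.range (5 + 1),
        (-1 : ℤ) ^ (p + q) * (X.hodge p q - X'.hodge p q) +
        48 * (2 * ((X.hodge 2 0 : ℤ) - X'.hodge 2 0) + ((X.hodge 1 1 : ℤ) - X'.hodge 1 1)) : ℤ) :
          ℚ) := by
    exact_mod_cast k
  push_cast at l4 l1 l2
  simp only [mul_sub, Finset.sum_sub_distrib] at l4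
  unfold RiemannRoch.c1c
  linarith

theorem eulerO_sub (X : HodgeLefschetz 5 V) (X' : HodgeLefschetz 5 V') (u : V ≃ₗ[ℚ] V')
    (hu : X.IsHodge X' u.toLinearMap) (hm : ∀ x y, X'.mukai (u x) (u y) = X.mukai x y)
    (h1 : X.HodgeIso X' 1) :
    X.eulerO - X'.eulerO = (X.hodge 2 0 : ℤ) - X'.hodge 2 0 := by
  obtain ⟨k, -⟩ := X.five_package X' u hu hm h1 (fun p q => (X.hodge p q : ℤ) - X'.hodge p q)
    (fun p q => rfl)
  simp only [mul_sub, Finset.sum_sub_distrib] at k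
  unfold eulerO
  exact k

theorem hodge_eq_of (X : HodgeLefschetz 5 V) (X' : HodgeLefschetz 5 V') (u : V ≃ₗ[ℚ] V')
    (hu : X.IsHodge X' u.toLinearMap) (hm : ∀ x y, X'.mukai (u x) (u y) = X.mukai x y)
    (h1 : X.HodgeIso X' 1) (h20 : X.hodge 2 0 = X'.hodge 2 0) (h11 : X.hodge 1 1 = X'.hodge 1 1)
    (p q : ℕ) : X.hodge p q = X'.hodge p q := by
  obtain ⟨-, -, k, -⟩ := X.five_package X' u hu hm h1
    (fun p q => (X.hodge p q : ℤ) - X'.hodge p q) (fun p q => rfl)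
  have := k (by simp only [h20, sub_self]) (by simp only [h11, sub_self]) p q
  omega

theorem betti_sub (X : HodgeLefschetz 5 V) (X' : HodgeLefschetz 5 V') (j : ℕ) :
    ∑ p ∈ Finset.range (j + 1), ((X.hodge p (j - p) : ℤ) - X'.hodge p (j - p)) =
      (X.betti j : ℤ) - X'.betti j := by
  rw [Finset.sum_sub_distrib, X.betti_eq_sum, X'.betti_eq_sum]
  push_cast
  rfl

theorem betti_eq_of (X : HodgeLefschetz 5 V) (X' : HodgeLefschetz 5 V') (u : V ≃ₗ[ℚ] V')
    (hu : X.IsHodge X' u.toLinearMap) (hm : ∀ x y, X'.mukai (u x) (u y) = X.mukai x y)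
    (h1 : X.HodgeIso X' 1)
    (h : 2 * ((X.hodge 2 0 : ℤ) - X'.hodge 2 0) + ((X.hodge 1 1 : ℤ) - X'.hodge 1 1) = 0)
    (j : ℕ) : X.betti j = X'.betti j := by
  obtain ⟨-, -, -, k, -⟩ := X.five_package X' u hu hm h1
    (fun p q => (X.hodge p q : ℤ) - X'.hodge p q) (fun p q => rfl)
  have := k h j
  rw [X.betti_sub X'] at this
  omega

theorem betti_two (X : HodgeLefschetz 5 V) (X' : HodgeLefschetz 5 V') (u : V ≃ₗ[ℚ] V')
    (hu : X.IsHodge X' u.toLinearMap) (hm : ∀ x y, X'.mukai (u x) (u y) = X.mukai x y)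
    (h1 : X.HodgeIso X' 1) : (X.betti 2 : ℤ) - X'.betti 2 =
      2 * ((X.hodge 2 0 : ℤ) - X'.hodge 2 0) + ((X.hodge 1 1 : ℤ) - X'.hodge 1 1) := by
  obtain ⟨-, -, -, -, k⟩ := X.five_package X' u hu hm h1
    (fun p q => (X.hodge p q : ℤ) - X'.hodge p q) (fun p q => rfl)
  rw [X.betti_sub X'] at k
  exact k

/-- Betti numbers of fivefolds -/
theorem betti_iff (X : HodgeLefschetz 5 V) (X' : HodgeLefschetz 5 V') (R : X.RiemannRoch)
    (R' : X'.RiemannRoch) (u : V ≃ₗ[ℚ] V') (hu : X.IsHodge X' u.toLinearMap)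
    (hm : ∀ x y, X'.mukai (u x) (u y) = X.mukai x y) (h1 : X.HodgeIso X' 1) :
    RiemannRoch.c1c X R - RiemannRoch.c1c X' R' = 24 * ((X.betti 2 : ℚ) - X'.betti 2) ∧
    (X.betti 2 = X'.betti 2 → ∀ j, X.betti j = X'.betti j) := by
  have e1 := X.c1c_sub X' R R' u hu hm h1
  have e2 := X.betti_two X' u hu hm h1
  constructor
  · rw [e1]
    have e3 : (((X.betti 2 : ℤ) - X'.betti 2 : ℤ) : ℚ) =
      ((2 * ((X.hodge 2 0 : ℤ) - X'.hodge 2 0) + ((X.hodge 1 1 : ℤ) - X'.hodge 1 1) : ℤ) : ℚ) := by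
      rw [e2]
    push_cast at e3
    rw [e3]
  · intro h j
    refine X.betti_eq_of X' u hu hm h1 ?_ j
    rw [← e2, h, sub_self]

/-- Hodge numbers of fivefolds -/
theorem hodge_iff (X : HodgeLefschetz 5 V) (X' : HodgeLefschetz 5 V') (u : V ≃ₗ[ℚ] V')
    (hu : X.IsHodge X' u.toLinearMap) (hm : ∀ x y, X'.mukai (u x) (u y) = X.mukai x y)
    (h1 : X.HodgeIso X' 1) (h2 : X.betti 2 = X'.betti 2) (h20 : X.hodge 2 0 = X'.hodge 2 0)
    (p q : ℕ) : X.hodge p q = X'.hodge p q := by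
  have e2 := X.betti_two X' u hu hm h1
  rw [h2, h20, sub_self, sub_self, mul_zero, zero_add] at e2
  exact X.hodge_eq_of X' u hu hm h1 h20 (by omega) p q

theorem numbers_of_can (X : HodgeLefschetz 5 V) (X' : HodgeLefschetz 5 V') (R : X.RiemannRoch)
    (R' : X'.RiemannRoch) (h : X.can = 0) (h' : X'.can = 0) :
    RiemannRoch.c1c X R = RiemannRoch.c1c X' R' ∧ X.eulerO = X'.eulerO := by
  constructor
  · unfold RiemannRoch.c1c
    rw [h, h', LinearMap.zero_apply, LinearMap.zero_apply, map_zero, map_zero]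
  · have l1 := R.hirzebruch (by decide)
    have l2 := R'.hirzebruch (by decide)
    rw [h, LinearMap.zero_apply, map_zero] at l1
    rw [h', LinearMap.zero_apply, map_zero] at l2
    have l3 : ((X.eulerO : ℤ) : ℚ) = ((X'.eulerO : ℤ) : ℚ) := by
      unfold eulerO
      push_cast
      rw [l1, l2]
    exact_mod_cast l3

theorem all_five (X : HodgeLefschetz 5 V) (X' : HodgeLefschetz 5 V') (u : V ≃ₗ[ℚ] V')
    (hu : X.IsHodge X' u.toLinearMap) (hm : ∀ x y, X'.mukai (u x) (u y) = X.mukai x y)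
    (h1 : X.HodgeIso X' 1) (h : ∀ p q, X.hodge p q = X'.hodge p q) (h20 : X.hodge 2 0 = 0)
    (j : ℕ) : X.HodgeIso X' j := by
  rcases Nat.mod_two_eq_zero_or_one j with hj | hj
  · have e2 : X.HodgeIso X' 2 := X.hodgeIso_two X' h20 (by rw [← h]; exact h20) (h 1 1)
    have key : ∀ j ≤ 5, j % 2 = 0 → X.HodgeIso X' j ∧ X.HodgeIso X' (10 - j) := by
      intro j hj5 hj
      have h0 := X.hodgeIso_zero X'
      have h4 := X.cancel_block X' u hu hm 4 (by norm_num) (by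
        intro i hi h0 _ hij hb
        have : i = 2 := by
          interval_cases i <;> simp_all [block]
        rw [this]
        exact e2)
      obtain rfl | rfl | rfl : j = 0 ∨ j = 2 ∨ j = 4 := by omega
      · exact ⟨h0, X.hodgeIso_dual X' u hu hm 0 (by norm_num) h0⟩
      · exact ⟨e2, X.hodgeIso_dual X' u hu hm 2 (by norm_num) e2⟩
      · exact h4
    rcases Nat.lt_or_ge 10 j with h | h
    · exact X.hodgeIso_top X' j h
    · rcases Nat.le_total j 5 with h2 | h2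
      · exact (key j h2 hj).1
      · have := (key (10 - j) (by omega) (by omega)).2
        rwa [show 10 - (10 - j) = j by omega] at this
  · exact X.odd_five X' u hu hm h1 j hj

end HodgeLefschetz

end Pool.Agent.Lib.OrlovSig
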