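import Pool.Agent.Lib.OrlovFive.Numbers

/-!
# The second moment of the Hodge numbers

A Hodge isomorphism up to Tate twists preserves the column sums of the Hodge diamond.  With the
formula of Libgober and Wood this gives the invariance of
`3 ∑ (-1)^j (j - d)² b_j - 2 c₁ c_{d-1}`.
-/

set_option autoImplicit false
set_option linter.unusedSectionVars false

open scoped TensorProduct ComplexOrder

namespace Pool.Agent.Lib.OrlovSig

namespace HodgeLefschetz

variable {d : ℕ} {V V' : Type*} [AddCommGroup V] [Module ℚ V] [FiniteDimensional ℚ V]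
  [AddCommGroup V'] [Module ℚ V'] [FiniteDimensional ℚ V']

theorem trace_col (X : HodgeLefschetz d V) (c : ℤ) :
    LinearMap.trace ℂ (ℂ ⊗[ℚ] V) (X.col c) =
      ((∑ i ∈ Finset.range (2 * d + 1) ×ˢ Finset.range (2 * d + 1),
        if (i.1 : ℤ) - i.2 = c then (X.hodge i.1 i.2 : ℚ) else 0 : ℚ) : ℂ) := by
  unfold col
  rw [map_sum, Rat.cast_sum]
  refine Finset.sum_congr rfl (fun i _ => ?_)
  split_ifs with h
  · rw [← X.hodge_eq_trace]
    push_cast
    rfl
  · simp

theorem col_sum_eq (X : HodgeLefschetz d V) (X' : HodgeLefschetz d V') (u : V ≃ₗ[ℚ] V')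
    (hu : X.IsHodge X' u.toLinearMap) (c : ℤ) :
    (∑ i ∈ Finset.range (2 * d + 1) ×ˢ Finset.range (2 * d + 1),
        if (i.1 : ℤ) - i.2 = c then (X.hodge i.1 i.2 : ℚ) else 0) =
      ∑ i ∈ Finset.range (2 * d + 1) ×ˢ Finset.range (2 * d + 1),
        if (i.1 : ℤ) - i.2 = c then (X'.hodge i.1 i.2 : ℚ) else 0 := by
  have h := trace_conj_equiv u (X.col c) (X'.col c) (hu c)
  rw [trace_col, trace_col] at h
  exact_mod_cast h

/-- a sum over the square of size `2 d + 1` is a sum over the Hodge diamond -/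
theorem sum_big (X : HodgeLefschetz d V) (f : ℕ → ℕ → ℚ) :
    ∑ i ∈ Finset.range (2 * d + 1) ×ˢ Finset.range (2 * d + 1), f i.1 i.2 * X.hodge i.1 i.2 =
      ∑ p ∈ Finset.range (d + 1), ∑ q ∈ Finset.range (d + 1), f p q * X.hodge p q := by
  rw [← Finset.sum_product']
  symm
  apply Finset.sum_subset
  · intro i hi
    rw [Finset.mem_product, Finset.mem_range, Finset.mem_range] at hi ⊢
    omega
  · intro i _ hi
    rw [Finset.mem_product, Finset.mem_range, Finset.mem_range] at hi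
    rw [X.hodge_eq_zero (by omega)]
    simp

theorem sum_weight_col (X : HodgeLefschetz d V) (w : ℤ → ℚ) :
    ∑ i ∈ Finset.range (2 * d + 1) ×ˢ Finset.range (2 * d + 1),
        w ((i.1 : ℤ) - i.2) * X.hodge i.1 i.2 =
      ∑ c ∈ Finset.Icc (-(2 * d : ℤ)) (2 * d), w c *
        ∑ i ∈ Finset.range (2 * d + 1) ×ˢ Finset.range (2 * d + 1),
          if (i.1 : ℤ) - i.2 = c then (X.hodge i.1 i.2 : ℚ) else 0 := by
  simp only [Finset.mul_sum]
  rw [Finset.sum_comm]
  refine Finset.sum_congr rfl (fun i hi => ?_)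
  rw [Finset.mem_product, Finset.mem_range, Finset.mem_range] at hi
  rw [Finset.sum_eq_single ((i.1 : ℤ) - i.2)]
  · simp
  · intro c _ hc
    rw [if_neg (fun h => hc h.symm), mul_zero]
  · intro hc
    exfalso
    apply hc
    rw [Finset.mem_Icc]
    omega

/-- The sums of the Hodge numbers with a weight depending on `p - q` are invariant. -/
theorem weight_sum (X : HodgeLefschetz d V) (X' : HodgeLefschetz d V') (u : V ≃ₗ[ℚ] V')
    (hu : X.IsHodge X' u.toLinearMap) (w : ℤ → ℚ) :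
    ∑ p ∈ Finset.range (d + 1), ∑ q ∈ Finset.range (d + 1),
        w ((p : ℤ) - q) * X.hodge p q =
      ∑ p ∈ Finset.range (d + 1), ∑ q ∈ Finset.range (d + 1),
        w ((p : ℤ) - q) * X'.hodge p q := by
  rw [← X.sum_big (fun p q => w ((p : ℤ) - q)), ← X'.sum_big (fun p q => w ((p : ℤ) - q)),
    X.sum_weight_col w, X'.sum_weight_col w]
  refine Finset.sum_congr rfl (fun c _ => ?_)
  rw [X.col_sum_eq X' u hu c]

theorem betti_eq_sum' (X : HodgeLefschetz d V) (j : ℕ) :
    (X.betti j : ℚ) = ∑ p ∈ Finset.range (j + 1), (X.hodge p (j - p) : ℚ) := by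
  have h : ((X.betti j : ℚ) : ℂ) =
      ((∑ p ∈ Finset.range (j + 1), (X.hodge p (j - p) : ℚ) : ℚ) : ℂ) := by
    have h1 := LinearMap.trace_baseChange (X.pr j) ℂ
    rw [← X.hp_sum j, map_sum, ← X.betti_eq_trace] at h1
    rw [Rat.cast_sum]
    change algebraMap ℚ ℂ (X.betti j : ℚ) = _
    rw [← h1]
    refine Finset.sum_congr rfl (fun p _ => ?_)
    rw [← X.hodge_eq_trace]
    push_cast
    rfl
  exact_mod_cast h

/-- sums with a weight depending on the degree -/
theorem degree_sum (X : HodgeLefschetz d V) (f : ℕ → ℚ) :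
    ∑ p ∈ Finset.range (d + 1), ∑ q ∈ Finset.range (d + 1), f (p + q) * X.hodge p q =
      ∑ j ∈ Finset.range (2 * d + 1), f j * X.betti j := by
  rw [← X.sum_big (fun p q => f (p + q))]
  have h1 : ∀ j ∈ Finset.range (2 * d + 1), f j * (X.betti j : ℚ) =
      ∑ i ∈ Finset.range (2 * d + 1) ×ˢ Finset.range (2 * d + 1),
        if i.1 + i.2 = j then f (i.1 + i.2) * (X.hodge i.1 i.2 : ℚ) else 0 := by
    intro j hj
    rw [Finset.mem_range] at hj
    rw [X.betti_eq_sum', Finset.mul_sum, ← Finset.sum_filter]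
    refine Finset.sum_bij (fun p _ => (p, j - p)) ?_ ?_ ?_ ?_
    · intro p hp
      rw [Finset.mem_range] at hp
      rw [Finset.mem_filter, Finset.mem_product, Finset.mem_range, Finset.mem_range]
      dsimp only
      omega
    · intro p _ p' _ h
      exact (Prod.mk.injEq _ _ _ _ ▸ h : _ ∧ _).1
    · intro i hi
      rw [Finset.mem_filter, Finset.mem_product, Finset.mem_range, Finset.mem_range] at hi
      refine ⟨i.1, Finset.mem_range.2 (by omega), ?_⟩
      ext
      · rfl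
      · dsimp only
        omega
    · intro p hp
      rw [Finset.mem_range] at hp
      dsimp only
      rw [show p + (j - p) = j by omega]
  rw [Finset.sum_congr rfl h1, Finset.sum_comm]
  refine Finset.sum_congr rfl (fun i hi => ?_)
  rw [Finset.mem_product, Finset.mem_range, Finset.mem_range] at hi
  by_cases h2 : i.1 + i.2 ∈ Finset.range (2 * d + 1)
  · rw [Finset.sum_ite_eq, if_pos h2]
  · rw [Finset.sum_ite_eq, if_neg h2]
    rw [Finset.mem_range] at h2
    rw [X.hodge_eq_zero (by omega)]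
    simp

/-- the mixed term vanishes by the symmetry `h^{p,q} = h^{q,p}` -/
theorem mixed_sum (X : HodgeLefschetz d V) :
    ∑ p ∈ Finset.range (d + 1), ∑ q ∈ Finset.range (d + 1),
      (-1 : ℚ) ^ (p + q) * (((p : ℚ) - q) * ((p : ℚ) + q - d)) * X.hodge p q = 0 := by
  have h : ∑ p ∈ Finset.range (d + 1), ∑ q ∈ Finset.range (d + 1),
      (-1 : ℚ) ^ (p + q) * (((p : ℚ) - q) * ((p : ℚ) + q - d)) * X.hodge p q =
      ∑ p ∈ Finset.range (d + 1), ∑ q ∈ Finset.range (d + 1),
      -((-1 : ℚ) ^ (p + q) * (((p : ℚ) - q) * ((p : ℚ) + q - d)) * X.hodge p q) := by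
    rw [Finset.sum_comm]
    refine Finset.sum_congr rfl (fun p _ => Finset.sum_congr rfl (fun q _ => ?_))
    rw [X.hodge_symm q p, add_comm q p]
    ring
  simp only [Finset.sum_neg_distrib] at h
  linarith

theorem moment_aux (X : HodgeLefschetz d V) (R : X.RiemannRoch) :
    3 * ∑ j ∈ Finset.range (2 * d + 1), (-1 : ℚ) ^ j * ((j : ℚ) - d) ^ 2 * X.betti j -
        2 * RiemannRoch.c1c X R =
      ∑ p ∈ Finset.range (d + 1), ∑ q ∈ Finset.range (d + 1),
        ((-1 : ℚ) ^ ((p : ℤ) - q).natAbs * (d - 3 * (((p : ℤ) - q : ℤ) : ℚ) ^ 2)) *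
          X.hodge p q := by
  have h1 := R.libgober_wood
  have h2 := X.mixed_sum
  have h3 := X.degree_sum (fun j => (-1 : ℚ) ^ j * ((j : ℚ) - d) ^ 2)
  have hs : ∀ p q : ℕ, (-1 : ℚ) ^ ((p : ℤ) - q).natAbs = (-1 : ℚ) ^ (p + q) := by
    intro p q
    rcases Nat.even_or_odd (p + q) with he | ho
    · rw [he.neg_one_pow, Even.neg_one_pow]
      rw [Int.natAbs_even, Int.even_sub]
      rw [Nat.even_add] at he
      exact_mod_cast he
    · rw [ho.neg_one_pow, Odd.neg_one_pow]
      rw [Int.natAbs_odd, ← Int.not_even_iff_odd, Int.even_sub]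
      rw [← Nat.not_even_iff_odd, Nat.even_add] at ho
      exact_mod_cast ho
  rw [← h3]
  unfold RiemannRoch.c1c
  have h4 : 3 * ∑ p ∈ Finset.range (d + 1), ∑ q ∈ Finset.range (d + 1),
      (-1 : ℚ) ^ (p + q) * (2 * p - d) ^ 2 * X.hodge p q =
      3 * ∑ p ∈ Finset.range (d + 1), ∑ q ∈ Finset.range (d + 1),
        (fun j : ℕ => (-1 : ℚ) ^ j * ((j : ℚ) - d) ^ 2) (p + q) * X.hodge p q +
      d * ∑ p ∈ Finset.range (d + 1), ∑ q ∈ Finset.range (d + 1),
        (-1 : ℚ) ^ (p + q) * X.hodge p q +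
      6 * ∑ p ∈ Finset.range (d + 1), ∑ q ∈ Finset.range (d + 1),
        (-1 : ℚ) ^ (p + q) * (((p : ℚ) - q) * ((p : ℚ) + q - d)) * X.hodge p q -
      ∑ p ∈ Finset.range (d + 1), ∑ q ∈ Finset.range (d + 1),
        ((-1 : ℚ) ^ ((p : ℤ) - q).natAbs * (d - 3 * (((p : ℤ) - q : ℤ) : ℚ) ^ 2)) *
          X.hodge p q := by
    simp only [Finset.mul_sum, ← Finset.sum_add_distrib, ← Finset.sum_sub_distrib]
    refine Finset.sum_congr rfl (fun p _ => Finset.sum_congr rfl (fun q _ => ?_))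
    rw [hs]
    push_cast
    ring
  linarith

/-- The second moment of the Betti numbers, corrected by `c₁ c_{d-1}`, is invariant. -/
theorem moment (X : HodgeLefschetz d V) (X' : HodgeLefschetz d V') (R : X.RiemannRoch)
    (R' : X'.RiemannRoch) (u : V ≃ₗ[ℚ] V') (hu : X.IsHodge X' u.toLinearMap) :
    3 * ∑ j ∈ Finset.range (2 * d + 1), (-1 : ℚ) ^ j * ((j : ℚ) - d) ^ 2 * X.betti j -
        2 * RiemannRoch.c1c X R =
      3 * ∑ j ∈ Finset.range (2 * d + 1), (-1 : ℚ) ^ j * ((j : ℚ) - d) ^ 2 * X'.betti j -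
        2 * RiemannRoch.c1c X' R' := by
  rw [moment_aux, moment_aux]
  exact X.weight_sum X' u hu (fun c => (-1 : ℚ) ^ c.natAbs * (d - 3 * (c : ℚ) ^ 2))

end HodgeLefschetz

end Pool.Agent.Lib.OrlovSig
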