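import Pool.Agent.Lib.OrlovFive.Defs
import Pool.Agent.Lib.OrlovSig.Trans

/-!
# Symmetries of Hodge numbers
-/

set_option autoImplicit false
set_option linter.unusedSectionVars false

open scoped TensorProduct ComplexOrder

namespace Pool.Agent.Lib.OrlovSig

namespace HodgeLefschetz

variable {d : ℕ} {V V' : Type*} [AddCommGroup V] [Module ℚ V] [FiniteDimensional ℚ V]
  [AddCommGroup V'] [Module ℚ V'] [FiniteDimensional ℚ V']

theorem hodge_eq_trace (X : HodgeLefschetz d V) (p q : ℕ) :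
    (X.hodge p q : ℂ) = LinearMap.trace ℂ (ℂ ⊗[ℚ] V) (X.hp p q) := by
  have h : IsIdempotentElem (X.hp p q) := by
    unfold IsIdempotentElem
    apply LinearMap.ext
    intro x
    exact X.hp_self p q x
  exact ((LinearMap.IsIdempotentElem.isProj_range _ h).trace).symm

theorem betti_eq_trace (X : HodgeLefschetz d V) (j : ℕ) :
    (X.betti j : ℚ) = LinearMap.trace ℚ V (X.pr j) :=
  ((LinearMap.IsIdempotentElem.isProj_range _ (X.pr_self j)).trace).symm

theorem repr_conj {ι : Type*} (b : Module.Basis ι ℚ V) (z : ℂ ⊗[ℚ] V) (i : ι) :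
    (Algebra.TensorProduct.basis ℂ b).repr (conj V z) i =
      (starRingEnd ℂ) ((Algebra.TensorProduct.basis ℂ b).repr z i) := by
  induction z using TensorProduct.induction_on with
  | zero => simp
  | tmul a v =>
    unfold conj
    rw [LinearMap.rTensor_tmul, Algebra.TensorProduct.basis_repr_tmul,
      Algebra.TensorProduct.basis_repr_tmul]
    simp
  | add x y hx hy => simp only [map_add, Finsupp.add_apply, hx, hy]

theorem trace_conj (f g : (ℂ ⊗[ℚ] V) →ₗ[ℂ] (ℂ ⊗[ℚ] V))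
    (h : ∀ x, f (conj V x) = conj V (g x)) :
    LinearMap.trace ℂ (ℂ ⊗[ℚ] V) f = (starRingEnd ℂ) (LinearMap.trace ℂ (ℂ ⊗[ℚ] V) g) := by
  classical
  set b := Module.Free.chooseBasis ℚ V with hb
  rw [LinearMap.trace_eq_matrix_trace ℂ (Algebra.TensorProduct.basis ℂ b),
    LinearMap.trace_eq_matrix_trace ℂ (Algebra.TensorProduct.basis ℂ b), Matrix.trace,
    Matrix.trace, map_sum]
  refine Finset.sum_congr rfl (fun i _ => ?_)
  rw [Matrix.diag_apply, Matrix.diag_apply, LinearMap.toMatrix_apply, LinearMap.toMatrix_apply,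
    ← repr_conj, ← h, Algebra.TensorProduct.basis_apply, conj_one_tmul]

theorem hodge_symm (X : HodgeLefschetz d V) (p q : ℕ) : X.hodge p q = X.hodge q p := by
  have h := trace_conj (X.hp p q) (X.hp q p) (X.hp_conj p q)
  rw [← X.hodge_eq_trace, ← X.hodge_eq_trace, Complex.conj_natCast] at h
  exact_mod_cast h

theorem pairC_nondeg' (X : HodgeLefschetz d V) (z : ℂ ⊗[ℚ] V)
    (h : ∀ x, X.pair.baseChange ℂ x z = 0) : z = 0 :=
  X.pairC_nondeg z (fun x => h _)

/-- adjoints for the Poincaré pairing have the same trace -/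
theorem trace_adj (X : HodgeLefschetz d V) (f g : (ℂ ⊗[ℚ] V) →ₗ[ℂ] (ℂ ⊗[ℚ] V))
    (h : ∀ x y, X.pair.baseChange ℂ (f x) y = X.pair.baseChange ℂ x (g y)) :
    LinearMap.trace ℂ (ℂ ⊗[ℚ] V) f = LinearMap.trace ℂ (ℂ ⊗[ℚ] V) g := by
  set B : (ℂ ⊗[ℚ] V) →ₗ[ℂ] Module.Dual ℂ (ℂ ⊗[ℚ] V) := LinearMap.flip (X.pair.baseChange ℂ)
    with hB
  have hinj : Function.Injective B := by
    rw [injective_iff_map_eq_zero]
    intro z hz
    apply X.pairC_nondeg'
    intro x
    have := LinearMap.congr_fun hz x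
    simpa [hB] using this
  have hbij : Function.Bijective B := ⟨hinj,
    (LinearMap.injective_iff_surjective_of_finrank_eq_finrank
      (Subspace.dual_finrank_eq (K := ℂ) (V := ℂ ⊗[ℚ] V)).symm).1 hinj⟩
  set e := LinearEquiv.ofBijective B hbij with he
  have h1 : f.dualMap = e.conj g := by
    apply LinearMap.ext
    intro y
    apply LinearMap.ext
    intro x
    obtain ⟨z, rfl⟩ := e.surjective y
    rw [LinearEquiv.conj_apply_apply, LinearEquiv.symm_apply_apply, LinearMap.dualMap_apply]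
    change X.pair.baseChange ℂ (f x) z = X.pair.baseChange ℂ x (g z)
    exact h x z
  rw [← LinearMap.trace_conj' g e, ← h1]
  exact (LinearMap.trace_transpose' (R := ℂ) f).symm

theorem pairC_hp_adj (X : HodgeLefschetz d V) {p q : ℕ} (hp : p ≤ d) (hq : q ≤ d)
    (x y : ℂ ⊗[ℚ] V) :
    X.pair.baseChange ℂ (X.hp p q x) y = X.pair.baseChange ℂ x (X.hp (d - p) (d - q) y) := by
  have h := X.ext_hp₂ (f := (X.pair.baseChange ℂ).compl₁₂ (X.hp p q) LinearMap.id)
    (g := (X.pair.baseChange ℂ).compl₁₂ LinearMap.id (X.hp (d - p) (d - q))) ?_ x y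
  · simpa only [LinearMap.compl₁₂_apply, LinearMap.id_apply] using h
  · intro a b x a' b' y
    simp only [LinearMap.compl₁₂_apply, LinearMap.id_apply, X.hp_hp]
    by_cases hd : (a + a', b + b') = (d, d)
    · rw [Prod.mk.injEq] at hd
      split_ifs with h1 h2 h2
      · rfl
      · omega
      · omega
      · simp
    · have h0 := X.pair_hp a b a' b' x y hd
      split_ifs with h1 h2 h2
      · rfl
      · rw [h0]; simp
      · rw [h0]; simp
      · simp

/-- Serre duality -/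
theorem hodge_serre (X : HodgeLefschetz d V) {p q : ℕ} (hp : p ≤ d) (hq : q ≤ d) :
    X.hodge p q = X.hodge (d - p) (d - q) := by
  have h := X.trace_adj _ _ (X.pairC_hp_adj hp hq)
  rw [← X.hodge_eq_trace, ← X.hodge_eq_trace] at h
  exact_mod_cast h

theorem hp_eq_zero (X : HodgeLefschetz d V) {p q : ℕ} (h : d < p ∨ d < q) : X.hp p q = 0 := by
  apply LinearMap.ext
  intro x
  rw [LinearMap.zero_apply]
  apply X.pairC_nondeg'
  intro y
  have h2 : (X.pair.baseChange ℂ).compl₁₂ LinearMap.id (X.hp p q) = 0 := by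
    refine LinearMap.ext fun a => LinearMap.ext fun b => ?_
    have := X.ext_hp₂ (f := (X.pair.baseChange ℂ).compl₁₂ LinearMap.id (X.hp p q)) (g := 0) ?_ a b
    · exact this
    · intro p1 q1 x1 p2 q2 x2
      simp only [LinearMap.compl₁₂_apply, LinearMap.id_apply, X.hp_hp, LinearMap.zero_apply]
      split_ifs with h3
      · obtain ⟨rfl, rfl⟩ := h3
        apply X.pair_hp
        intro h4
        rw [Prod.mk.injEq] at h4
        omega
      · simp
  have h3 := LinearMap.congr_fun₂ h2 y x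
  simpa using h3

theorem hodge_eq_zero (X : HodgeLefschetz d V) {p q : ℕ} (h : d < p ∨ d < q) :
    X.hodge p q = 0 := by
  have h1 := X.hodge_eq_trace p q
  rw [X.hp_eq_zero h, map_zero] at h1
  exact_mod_cast h1

theorem trace_conj_equiv (φ : V ≃ₗ[ℚ] V') (f : (ℂ ⊗[ℚ] V) →ₗ[ℂ] (ℂ ⊗[ℚ] V))
    (g : (ℂ ⊗[ℚ] V') →ₗ[ℂ] (ℂ ⊗[ℚ] V'))
    (h : ∀ x, φ.toLinearMap.baseChange ℂ (f x) = g (φ.toLinearMap.baseChange ℂ x)) :
    LinearMap.trace ℂ (ℂ ⊗[ℚ] V) f = LinearMap.trace ℂ (ℂ ⊗[ℚ] V') g := by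
  set e : (ℂ ⊗[ℚ] V) ≃ₗ[ℂ] (ℂ ⊗[ℚ] V') := LinearEquiv.ofLinearMap
    (φ.toLinearMap.baseChange ℂ) (φ.symm.toLinearMap.baseChange ℂ)
    (by rw [← LinearMap.baseChange_comp, LinearEquiv.comp_symm, LinearMap.baseChange_id])
    (by rw [← LinearMap.baseChange_comp, LinearEquiv.symm_comp, LinearMap.baseChange_id]) with he
  have h1 : g = e.conj f := by
    apply LinearMap.ext
    intro y
    obtain ⟨z, rfl⟩ := e.surjective y
    rw [LinearEquiv.conj_apply_apply, LinearEquiv.symm_apply_apply]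
    exact (h z).symm
  rw [h1, LinearMap.trace_conj']

/-- Hodge numbers of isomorphic Hodge structures -/
theorem hodge_of_hodgeIso (X : HodgeLefschetz d V) (X' : HodgeLefschetz d V') {j : ℕ}
    (h : X.HodgeIso X' j) {p q : ℕ} (hpq : p + q = j) : X.hodge p q = X'.hodge p q := by
  obtain ⟨f, g, hgf, hfg, hh⟩ := h
  have e1 : (X.hp p q) = (g.baseChange ℂ) ∘ₗ (X'.hp p q ∘ₗ f.baseChange ℂ) := by
    apply LinearMap.ext
    intro x
    rw [LinearMap.comp_apply, LinearMap.comp_apply, ← hh p q hpq, ← LinearMap.comp_apply,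
      ← LinearMap.baseChange_comp, hgf, X.prC_hp, if_pos hpq]
  have e2 : (X'.hp p q) = (X'.hp p q ∘ₗ f.baseChange ℂ) ∘ₗ (g.baseChange ℂ) := by
    apply LinearMap.ext
    intro x
    rw [LinearMap.comp_apply, LinearMap.comp_apply, ← LinearMap.comp_apply (f.baseChange ℂ),
      ← LinearMap.baseChange_comp, hfg, X'.hp_prC, if_pos hpq]
  have h1 : LinearMap.trace ℂ _ (X.hp p q) = LinearMap.trace ℂ _ (X'.hp p q) := by
    rw [e1, LinearMap.trace_comp_comm', ← e2]
  rw [← X.hodge_eq_trace, ← X'.hodge_eq_trace] at h1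
  exact_mod_cast h1

end HodgeLefschetz

end Pool.Agent.Lib.OrlovSig
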